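import Pool.Agent.KS6_26.U.Main

/-!
MP_4dacf8_ag, Q1: Vojta's height inequality for all algebraic points on generic complete
intersections up to the borderline, with a constant that depends on the degrees only.

Let `F_a`, for `a` in a finite set `A`, be forms of degrees `d_a > 0` in `n + 1` variables, and let
`X` be the complete intersection `F_a = 0`, `a ∈ A`, in projective space of dimension `n`. Suppose
that `|A| < n` and `3 n + 2 ≤ S + ∑ d_a`, where `S = ∑ (d_a + 1)`. If this is an equality (the
borderline), suppose moreover that one of the following holds: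

* `X` is a surface, `n = |A| + 2`, `|A| ≥ 2`, and all `d_a ≥ 2`;
* for all `a`, the dimension `3 (n - 2)` of the space of planes is less than the number
  `∑_{b ≠ a} (d_b + 2 choose 2)` of the conditions for a plane to be contained in the intersection
  of the other hypersurfaces `F_b = 0`.

Then `X` is of general type, `n + 2 ≤ ∑ d_a`, and there is a constant `c`, which depends only on `n`
and the degrees, such that the following holds. Let `F` be any function field of one variable over an
algebraically closed field `k` of characteristic `0`, let `F0` be a subfield of `F` which is finitely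
generated over a subfield `k0` of `k`, and suppose that the forms `F_a` have coefficients in `F` which
are, for all `a` together, algebraically independent over `F0`. (For `k` uncountable and `k0`
countable, this holds for the very general forms over `k`, that is, for constant families, and for
very general families of forms, which are not isotrivial.) Then:

(1) There is a constant `B` such that for all finite extensions `L` of `F`
    `h(x) ≤ c (2 g(L) - 2) + B [L : F]` for all points `x` of `X` over `L` that do not lie on a line
    contained in `X`. (The heights and the canonical degree are relative to `L`, so that they are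
    `[L : F]` times those of the question.)
(2) The lines contained in `X` are contained in `G = 0` for a form `G` that does not vanish on all
    of `X`. So (1) is the inequality of the question for the pair `(X, 0)`, with `Z` the closure of
    the union of the lines.
(3) If `S ≥ 2 n - 1` then `X` contains no lines. So `Z` is empty.
(4) All subvarieties of `X` of dimension `w ≥ 2 n + 2 - S`, `w > 0`, are of general type.

The case `3 n + 3 ≤ S + ∑ d_a` is known from `GenericLogPairs`, and the case of quintic surfaces in
space is known from `GenericSurfaces`. The new case is the borderline. If all `d_a ≥ 2`, it consists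
of the following intersections.

* Surfaces, with canonical class `O(1)`, of degrees `(2,4)`, `(3,3)`, `(2,2,3)`, `(2,2,2,2)`. They
  contain no lines. These are, with the quintic surfaces, all the types of complete intersection
  surfaces of general type that do not satisfy `3 n + 3 ≤ S + ∑ d_a`. So the inequality of the
  question is now known, with `Z` empty, for all algebraic points on the generic complete
  intersection surfaces of general type, of all types.
* Fourfolds, with canonical class `O(2)`, of `15` types. They contain no lines, so `Z` is empty. The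
  types `8`, `(2,7)`, `(3,6)`, `(2,2,6)`, `(2,2,2,5)` are excluded. (They contain plane curves.)
* Intersections of dimension `2 p ≥ 6`, with canonical class `O(p)`; these contain lines.

Algebraic points are not controlled by the finiteness of the rational points over finitely generated
fields, which is known on the borderline (`BorderlineIntersections` in MP_e52354_nt).

The proof is the following. Derivatives of an algebraic point by the derivations of the linear
systems of the forms give wedge products of vectors in the tangent space. On the borderline, the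
resulting inequality does not bound the height of the point when the derivations of the linear group
fix the point; but then the point is contained in a plane over `L` of height at most a multiple of
`T = 2 g(L) - 2 + B [L : F]`. Suppose that there is no constant `c`. Then there is a sequence of
function fields `L_m` (over different fields `k_m`), of generic complete intersections over `L_m` and
of points on planes, the heights of which are at most a multiple of `T_m`, whereas the heights of the
points are more than `m T_m`. Embed all `L_m` in a field, and take an ultrapower of it. The elements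
given by sequences of elements of the fields `L_m`, of heights at most a multiple of `T_m`, form a
field `E`, and such a sequence which is algebraic over `E` belongs to `E`. In the limit, the point
lies on a plane over the algebraic closure of `E`, and on a generic complete intersection over `E`,
so it is algebraic over `E`, or it is on a plane curve or a line contained in the complete
intersection. By a count of parameters, there are no plane curves of degree at least two.

Definitions: `Degrees n d`: the conditions on the degrees; `Generic F0 d H`: `H_a` are forms of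
degrees `d_a`, their coefficients are, for all `a` together, algebraically independent over `F0`;
`IsLine G W`: `W` is a vector space of dimension two, on which all `G a` vanish; `ext Ω H`: the forms
`H_a`, over the larger field `Ω`; `Heights k H Ω c B`, `Closed G`, `Subvarieties G s`: the statements
(1), (2), (4) (with `s = S`). In (4), `M` is the function field of the subvariety, or a finite
extension of it, and `y` is its generic point, in homogeneous coordinates. Of the library:
`coords K x`: the field generated over `K` by the ratios of the coordinates of `x`; `IsFF k F`: `F` is finitely generated and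
of transcendence degree one over `k`; `pht k x`: the height of the point `x` relative to `L`;
`canDeg k L`: the degree `2 g(L) - 2` of the canonical divisor; `GeneralType K M w`: `M` is the
function field of a variety of dimension `w` of general type, or a finite extension of one.
-/

set_option autoImplicit false

namespace Pool.Agent.Results.MP_4dacf8_ag.BorderlineIntersections

open FF MvPolynomial Pool.Agent.W603.LV Pool.Agent.W603.PV Pool.Agent.W602.GT

/-- The conditions on the degrees. -/
def Degrees (n : ℕ) {A : Type} [Fintype A] (d : A → ℕ) : Prop :=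
  Fintype.card A < n ∧ (∀ a, 0 < d a) ∧ 3 * n + 2 ≤ ∑ a, (d a + 1) + ∑ a, d a ∧
    -- the condition on the borderline
    (3 * n + 2 = ∑ a, (d a + 1) + ∑ a, d a →
      (n = Fintype.card A + 2 ∧ 2 ≤ Fintype.card A ∧ ∀ a, 2 ≤ d a) ∨
      ∀ a, 3 * (n - 2) + (d a + 2).choose 2 < ∑ b, (d b + 2).choose 2)

/-- Forms of degrees `d a`, the coefficients of which are algebraically independent over `F0`. -/
def Generic (F0 : Type) {F : Type} [Field F0] [Field F] [Algebra F0 F] {n : ℕ} {A : Type}
    (d : A → ℕ) (H : A → MvPolynomial (Fin (n + 1)) F) : Prop :=
  (∀ a, (H a).IsHomogeneous (d a)) ∧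
    AlgebraicIndependent F0 fun p : (a : A) × {I : Fin (n + 1) →₀ ℕ // I.degree = d a} =>
      (H p.1).coeff p.2.1

/-- A line, given by a vector space of dimension two, that is contained in `G a = 0` for all `a`. -/
def IsLine {K A : Type} [Field K] {n : ℕ} (G : A → MvPolynomial (Fin (n + 1)) K)
    (W : Submodule K (Fin (n + 1) → K)) : Prop :=
  Module.finrank K W = 2 ∧ ∀ a, ∀ v ∈ W, eval v (G a) = 0

/-- The forms over a larger field. -/
noncomputable def ext {F : Type} (Ω : Type) [Field F] [Field Ω] [Algebra F Ω] {A : Type} {n : ℕ}
    (H : A → MvPolynomial (Fin (n + 1)) F) : A → MvPolynomial (Fin (n + 1)) Ω :=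
  fun a => map (algebraMap F Ω) (H a)

/-- The height inequality for the algebraic points that are not on lines. -/
def Heights (k : Type) {F : Type} [Field k] [Field F] [Algebra k F] {A : Type} {n : ℕ}
    (H : A → MvPolynomial (Fin (n + 1)) F) (Ω : Type) [Field Ω] [Algebra F Ω] (c B : ℕ) : Prop :=
  ∀ (L : Type) [Field L] [Algebra k L] [Algebra F L] [IsScalarTower k F L] [FiniteDimensional F L]
    (φ : L →ₐ[F] Ω) (x : Fin (n + 1) → L), x ≠ 0 → (∀ a, aeval x (H a) = 0) →
    pht k x ≤ c * canDeg k L + B * Module.finrank F L ∨
      ∃ W, IsLine (ext Ω H) W ∧ (fun j => φ (x j)) ∈ W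

/-- The lines are contained in a proper closed subset. -/
def Closed {K A : Type} [Field K] {n : ℕ} (G : A → MvPolynomial (Fin (n + 1)) K) : Prop :=
  ∃ (P : MvPolynomial (Fin (n + 1)) K) (e : ℕ), P.IsHomogeneous e ∧
    (∃ v, (∀ a, eval v (G a) = 0) ∧ eval v P ≠ 0) ∧ ∀ W, IsLine G W → ∀ v ∈ W, v ≠ 0 → eval v P = 0

/-- The subvarieties of dimension `w`, `2 n + 2 ≤ s + w`, are of general type. -/
def Subvarieties {K A : Type} [Field K] {n : ℕ} (G : A → MvPolynomial (Fin (n + 1)) K)
    (s : ℕ) : Prop :=
  ∀ (M : Type) [Field M] [Algebra K M] (w : ℕ) (y : Fin (n + 1) → M), 0 < w →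
    2 * n + 2 ≤ s + w → Algebra.trdeg K M = w → y ≠ 0 → Algebra.IsAlgebraic (coords K y) M →
    (∀ a, aeval y (G a) = 0) → GeneralType K M w

theorem result {n : ℕ} {A : Type} [Fintype A] {d : A → ℕ} (hd : Degrees n d) :
    n + 2 ≤ ∑ a, d a ∧
    -- the constant depends on `n` and the degrees only
    ∃ c : ℕ, ∀ (k0 k F0 F : Type) [Field k0] [Field k] [Field F0] [Field F] [IsAlgClosed k]
      [CharZero k] [Algebra k0 k] [Algebra k F] [Algebra k0 F] [IsScalarTower k0 k F]
      [Algebra k0 F0] [Algebra F0 F] [IsScalarTower k0 F0 F]
      -- `F` is a function field of one variable over `k`, `F0` is finitely generated over `k0`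
      [IsFF k F], (∃ S : Finset F0, IntermediateField.adjoin k0 (S : Set F0) = ⊤) →
      ∀ (H : A → MvPolynomial (Fin (n + 1)) F), Generic F0 d H →
      ∃ B : ℕ, ∀ (Ω : Type) [Field Ω] [Algebra F Ω] [IsAlgClosed Ω],
        Heights k H Ω c B ∧ Closed (ext Ω H) ∧
        (2 * n - 1 ≤ ∑ a, (d a + 1) → ∀ W, ¬ IsLine (ext Ω H) W) ∧
        Subvarieties (ext Ω H) (∑ a, (d a + 1)) := by
  classical
  obtain ⟨hA, hd0, hd, hb⟩ := hd
  have hS : ∑ a, (d a + 1) = ∑ a, d a + Fintype.card A := by
    rw [Finset.sum_add_distrib, Finset.sum_const, smul_eq_mul, mul_one, Finset.card_univ]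
  rw [hS] at hd hb
  have hn2 : n + 2 ≤ ∑ a, d a := by omega
  refine ⟨hn2, ?_⟩
  obtain ⟨c, hc⟩ := Pool.Agent.KS6_26.U.main hA hd0 (by omega) (fun he => by
    rcases hb (by omega) with ⟨h1, h2, h3⟩ | h1
    · exact Pool.Agent.KS6_26.U.crit_surf h1.symm (by omega) h3 (by omega)
    · exact Pool.Agent.KS6_26.G.crit_of (by omega) he h1)
  refine ⟨c, ?_⟩
  intro k0 k F0 F _ _ _ _ _ _ _ _ _ _ _ _ _ _ hfg H hgen
  obtain ⟨hH, hgen⟩ := hgen
  obtain ⟨B, hB⟩ := hc k0 k F0 F hfg H hH hgen
  refine ⟨B, ?_⟩
  intro Ω _ _ _
  have hczF : CharZero F := charZero_of_injective_algebraMap (algebraMap k F).injective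
  have hczΩ : CharZero Ω := charZero_of_injective_algebraMap (algebraMap F Ω).injective
  have hG : ∀ a, ext Ω H a = map (algebraMap F Ω) (H a) := fun _ => rfl
  have hGh : ∀ a, (ext Ω H a).IsHomogeneous (d a) := fun a => (hH a).map _
  have hgΩ := Pool.Agent.Y741.indep_ext hgen hG
  let _ : Algebra F0 Ω := ((algebraMap F Ω).comp (algebraMap F0 F)).toAlgebra
  obtain ⟨I0, hI0⟩ : ∃ I0 : A → Fin (n + 1) →₀ ℕ, ∀ a, (I0 a).degree = d a :=
    ⟨fun a => Finsupp.single 0 (d a), fun a => Finsupp.degree_single _ _⟩
  have h0 : ∀ a, (ext Ω H a).coeff (I0 a) ≠ 0 := fun a => hgΩ.ne_zero ⟨a, ⟨I0 a, hI0 a⟩⟩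
  have hind := Pool.Agent.Y741.ratio_indep_fam hgΩ I0 hI0
  obtain ⟨I1, hI1⟩ : ∃ I1 : ∀ a, {I : Fin (n + 1) →₀ ℕ // I.degree = d a},
    ∀ a, (I1 a).1 = I0 a := ⟨fun a => ⟨I0 a, hI0 a⟩, fun _ => rfl⟩
  have h1 : ∀ a, (ext Ω H a).coeff (I1 a).1 ≠ 0 := fun a => by rw [hI1]; exact h0 a
  have hind1 : AlgebraicIndependent F0
      fun p : (a : A) × {I : {I : Fin (n + 1) →₀ ℕ // I.degree = d a} // I ≠ I1 a} =>
        (ext Ω H p.1).coeff p.2.1.1 / (ext Ω H p.1).coeff (I1 p.1).1 := by
    have h2 := hind.comp (fun p : (a : A) × {I : {I : Fin (n + 1) →₀ ℕ // I.degree = d a} //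
        I ≠ I1 a} => (⟨p.1, ⟨p.2.1.1, p.2.1.2, fun h => p.2.2 (Subtype.ext (by
          rw [hI1]; exact h))⟩⟩ : Pool.Agent.TH145.GC.Rt d I0)) (by
        rintro ⟨a, ⟨⟨I, hI⟩, hne⟩⟩ ⟨a', ⟨⟨I', hI'⟩, hne'⟩⟩ h
        have e1 : a = a' := congrArg Sigma.fst h
        subst e1
        have e2 := eq_of_heq (Sigma.mk.inj_iff.1 h).2
        have e3 : I = I' := congrArg (fun z => z.1) e2
        subst e3
        rfl)
    simp only [hI1]
    exact h2
  obtain ⟨-, -, -, h4⟩ := Pool.Agent.Y735.LG.ci_all (by omega) hd0 (ext Ω H) hGh I1 h1 hind1
  exact ⟨fun L _ _ _ _ _ φ x hx hxH => hB Ω L φ x hx hxH,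
    Pool.Agent.KS6_26.G.closed_lines hA hd0 hn2 (ext Ω H) hGh I1 h1 hind1,
    fun h2 W => Pool.Agent.KS6_26.G.no_lines_gen (by omega) (ext Ω H) hGh I1 h1 hind1 W, h4⟩

end Pool.Agent.Results.MP_4dacf8_ag.BorderlineIntersections
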