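import Pool.Agent.KS6_26.E.One

/-!
MP_4dacf8_ag, Q1: Vojta's height inequality, with constant one and truncated counting function, for
the pairs which are generic in ANY family of pairs of low codimension, for all algebraic points.

Let `F` be a function field of one variable over an algebraically closed field `k` of characteristic
`0`, and let `F0` be a subfield of `F` which is finitely generated over a subfield `k0` of `k`. Let
`H_a`, for `a` in a finite set `A`, be forms of degrees `d_a` over `F`, not `0`. They give a point of
the product of the projective spaces of the forms of degrees `d_a`. Suppose that the coordinates of
this point, the ratios of the coefficients of each of the `H_a`, generate a field of transcendence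
degree at least (the dimension of this product) `- δ` over `F0`: the forms satisfy no system of
algebraic conditions over `F0` of codimension larger than `δ`; they are a generic member of a family
of tuples of forms, defined over `F0`, not necessarily linear, of codimension at most `δ` in the
family of all tuples. (If `k` is uncountable and `k0` is countable, the very general members over `k`
of the family, and the very general one-parameter subfamilies, which are not isotrivial, are of this
kind.)

Then there is a constant `C` with

`(∑ d_a + z(x) - 2 r - 1 - δ) h(x) ≤ N1(x) + 2 g(L) - 2 + C [L : F]`

for all finite extensions `L` of `F` and all points `x` of projective space over `L`, where `r` is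
any number which is at least the dimension of the closure of the point `x` over `F0` (the
transcendence degree over `F0` of the field generated by the ratios of the coordinates), `z(x)` is
the number of the forms `H_a` with `H_a(x) = 0`, `h(x)` is the height relative to `L`, and `N1(x)` is
the number of places of `L` at which `x` meets one of the other hypersurfaces `H_a = 0`, each place
being counted once. All the heights are relative to `L`, so that they are `[L : F]` times those of
the question, and the inequality of the question is obtained after a division by `[L : F]`.

So let `V` be any closed subset over `F0` of projective space, of dimension `m`, let `E` be a subset of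
`A`, let `X` be the intersection of `V` with the hypersurfaces `H_a = 0`, `a ∈ E`, and let `D` be the
union of the sections `H_b = 0`, `b ∉ E`. The points of `X ∖ D` have `z(x) = |E|` and one can
take `r = m`. If `2 m + 2 + δ ≤ ∑ d_a + |E|`, then all points of `X ∖ D` over all finite extensions
`L` satisfy

`h(x) ≤ (∑ d_a + |E| - 2 m - 1 - δ) h(x) ≤ N1(x) + 2 g(L) - 2 + C [L : F]`:

the inequality of the question holds with constant one, with `Z = D`, and with a constant `C` which
does not depend on `V`.

For `δ = 0` this is known (`GenericPairs`). For `δ > 0` the pairs are no more generic: for example
`D` may be a generic hypersurface of degree `d` with `δ` nodes, or with any other singularities which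
impose `δ` conditions, `V` being projective space (`δ ≤ d - 2 n - 2`); or `D` may be tangent to given
varieties; or `D_1` and `D_2` may be tangent to each other at several points; or `X` and `D` may be
members of the linear system of all hypersurfaces which contain `δ` given points, for each position
of these points; or the coefficients may satisfy any `δ` algebraic relations over `F0`.

The proof: there are derivations of `F` dual to a transcendence basis consisting of ratios of
coefficients. They extend to `L`; the loss in the direction of the curve is bounded by the
ramification, the loss in the other directions by a multiple of `[L : F]`. The vectors of the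
derivatives of the point, of the logarithmic derivatives of the values of the forms that do not
vanish at `x`, and of the derivatives of the remaining (at most `δ`) coefficients, as additional
coordinates, have a nonzero minor, all poles of which outside of finitely many places of `F` are
simple and lie in the direction of the curve.

Definitions of the library: `IsFF k F`: `F` is finitely generated and of transcendence degree one over
`k`; `Place k L`: the points of the smooth projective curve with function field `L`; `pord P x`: the
minimum of the orders at `P` of the coordinates; `pht k x`: minus the sum of `pord P x` over all
places, the height relative to `L`; `canDeg k L`: the degree `2 g(L) - 2` of the canonical divisor;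
`coords F0 x`: the field generated over `F0` by the ratios of the coordinates.
-/

set_option autoImplicit false

namespace Pool.Agent.Results.MP_4dacf8_ag.FamiliesOfPairs

open FF MvPolynomial Pool.Agent.W603.LV Pool.Agent.W603.PV
open Pool.Agent.W602.GT (coords)

/-- The indices of the ratios of the coefficients: the exponents of degrees `d a`, different from
`I0 a`. Their number is the dimension of the product of the projective spaces of forms of degrees
`d a`. -/
abbrev Rat {n : ℕ} {A : Type} (d : A → ℕ) (I0 : A → Fin (n + 1) →₀ ℕ) : Type :=
  {p : A × (Fin (n + 1) →₀ ℕ) // p.2.degree = d p.1 ∧ p.2 ≠ I0 p.1}

theorem result {k0 k F0 F : Type} [Field k0] [Field k] [Field F0] [Field F] [IsAlgClosed k]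
    [CharZero k] [Algebra k0 k] [Algebra k F] [Algebra k0 F] [IsScalarTower k0 k F]
    [Algebra k0 F0] [Algebra F0 F] [IsScalarTower k0 F0 F]
    -- `F` is a function field of one variable over `k`, `F0` is finitely generated over `k0`
    [IsFF k F] (hfg : ∃ S : Finset F0, IntermediateField.adjoin k0 (S : Set F0) = ⊤) {n δ : ℕ}
    -- forms of degrees `d a`; the ratios of their coefficients generate a field of transcendence
    -- degree at least the number of the ratios minus `δ`
    {A : Type} [Fintype A] (d : A → ℕ) (H : A → MvPolynomial (Fin (n + 1)) F)
    (hH : ∀ a, (H a).IsHomogeneous (d a)) (I0 : A → Fin (n + 1) →₀ ℕ)
    (hI0 : ∀ a, (H a).coeff (I0 a) ≠ 0)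
    (htr : (Nat.card (Rat d I0) : Cardinal) ≤
      Algebra.trdeg F0 (IntermediateField.adjoin F0 (Set.range fun p : Rat d I0 =>
        (H p.1.1).coeff p.1.2 / (H p.1.1).coeff (I0 p.1.1))) + δ) :
    ∃ C : ℕ, ∀ (L : Type) [Field L] [Algebra k L] [Algebra F L] [Algebra F0 L]
      [IsScalarTower k F L] [IsScalarTower F0 F L] [FiniteDimensional F L]
      (x : Fin (n + 1) → L) (r : ℕ), x ≠ 0 → Algebra.trdeg F0 (coords F0 x) ≤ r →
      (∑ a, (d a : ℤ) + {a | aeval x (H a) = 0}.ncard - 2 * r - 1 - δ) * pht k x ≤
        {P : Place k L | ∃ a, aeval x (H a) ≠ 0 ∧
          d a * pord P x < P.ord (aeval x (H a))}.ncard +
          canDeg k L + C * Module.finrank F L :=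
  Pool.Agent.KS6_26.E.one_main (k0 := k0) (k := k) hfg d H hH I0 hI0 htr

end Pool.Agent.Results.MP_4dacf8_ag.FamiliesOfPairs
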