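import Pool.Agent.KS6_26.E.ZCor

/-!
MP_4dacf8_ag, Q1: Vojta's height inequality, with constant one and truncated counting function, for
the preimages of arbitrary pairs under generic maps, and for generic members of linear systems with
base points, for all algebraic points.

Let `F` be a function field of one variable over an algebraically closed field `k` of characteristic
`0`, and let `F0` be a subfield of `F` which is finitely generated over a subfield `k0` of `k`. Let
`H_a`, for `a` in a finite set `A`, be forms of any degrees `d_a` in `n + 1` variables over `F`, whose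
coefficients are, for all `a` together, algebraically independent over `F0`. (For `k` uncountable and
`k0` countable, this holds for the very general forms over `k`, and for very general families of
forms, which are not isotrivial.) The heights, counting functions and canonical degrees below are
relative to the field `L` of definition of the point, so that they are `[L : F]` times those of the
question.

(1) The general inequality. The forms `H = (H_a)` are a section of the sum `E` of the line bundles
`O(d_a)` on projective space. Let `φ_b`, for `b` in a finite set `Λ`, be polynomials over `F0` in the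
coordinates `x` of projective space and the coordinates `u_a` in the fibres of `E`, homogeneous of
weights `w_b` if `u_a` has weight `d_a`: the equations of arbitrary divisors in the total space of
`E`. There is a constant `C` such that for all finite extensions `L` of `F`, all points `x` of
projective space over `L` and all sets `T` of indices `b` with `φ_b(x, H(x)) ≠ 0`

`κ h(x) ≤ N1(x) + 2 g(L) - 2 + C [L : F]`,

if `κ + r + s + 1 ≤ ∑_{a ∈ B} (d_a + 1)` for all sets `B` of at least `|A| - f` indices. Here `r` is (at
least) the dimension of the closure of the point `x` over `F0`, `s` is the dimension of the point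
given by `x` and the values of the `φ_b`, `b ∈ T`, and `f` is the dimension of the point `(x, H(x))` of
`E` over the latter point; and `N1(x)` is the number of the places of `L` at which `x` meets one of the
divisors `φ_b = 0`, `b ∈ T`, each place being counted once.

(2) Preimages of pairs. Let `Y` be a weighted cone over `F0` in the affine space with coordinates
`u_a`, `a ∈ A` (that is, a closed subset that is invariant under the action of the multiplicative
group with weights `d_a`; arbitrary dimension and singularities), and `g_b = 0`, `b ∈ Λ`, invariant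
divisors on it. Suppose that the map `(g_b)_b` on the part of `Y` where all `g_b` are different from
`0` has an image of dimension at most `j`, and fibres of dimension at most `f`. Then, for every closed
subset `V` over `F0` of projective space, of dimension at most `m`, the inequality
`κ h(x) ≤ N1(x) + 2 g(L) - 2 + C [L : F]` holds for all `x` in `V` over `L` such that `H(x)` is in `Y` and
not on `∪ {g_b = 0}`, if `κ + 2 m + j + 1 ≤ ∑_{a ∈ B} (d_a + 1)` for all `B` with `|B| ≥ |A| - f`. (`C` does
not depend on `V` and `Y`.) With `κ = 1` this is the inequality of the question for the pair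
`X = V ∩ H⁻¹(Y)`, `D = ∪ {g_b(H) = 0}`, with `Z = D`.
For example, let all `d_a` be equal to `d`, `H` a generic rational map from projective `n`-space to
projective `N`-space, `V` the whole space, and let `D` be the preimage of an arbitrary hypersurface
(`j = 1`, `f = N`): the inequality holds for `d ≥ 2 n + 2`. Or let `H` be any forms, `D` the union of
the `H_a = 0`, and `Z₀` any closed subset of the torus, invariant under the one-parameter group with
the weights `d_a`, of codimension `c` (`j = |A| - c`, `f = 0`): the inequality holds for
`X ∖ D = V ∩ H⁻¹(Z₀)` if `2 m + 2 ≤ ∑ d_a + c`.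

(3) Linear systems with base points. Let `B0` be the closed subset `G_a = 0`, `a ∈ A`, of projective
space, for forms `G_a` of degrees `g_a` over `F0`, and let `S_i = ∑_a G_a H_{i,a}`, for `i` in a finite
set `I`, be generic members of degrees `D_i` of the linear systems given by the `G_a`, that is, the
`H_{i,a}` have degrees `d_{i,a} = D_i - g_a`, and all their coefficients are algebraically independent
over `F0`. So the `S_i` are generic hypersurfaces that contain `B0`. For all `x` of `V` over `L` that are
not in the base locus `B0`, the inequality holds for all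
`κ ≤ (the sum of any |I| of the numbers d_{i,a}) + z - 2 m - 1`, where `z` is the number of the `i` with
`S_i(x) = 0`, and `N1(x)` is the number of the places at which `x` meets one of the other
hypersurfaces `S_i = 0`. So the inequality of the question holds for `X = V ∩ {S_i = 0, i ∈ E}` and `D`
the union of the sections `S_i = 0`, `i ∉ E`, with constant one, if `2 m + 2 ≤ |I| min d_{i,a} + |E|`;
if `E ≠ I` then `D` contains the base locus and `Z = D`, and if `D` is empty then the exceptional set
`Z = V ∩ B0` is the base locus. In general, the points of the base locus do not satisfy the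
inequality: `B0` can be any variety, for example projective space of any small dimension.

The proof: there are derivations of `F` dual to the coefficients. They extend to `L`; the loss in the
direction of the curve is bounded by the ramification, the loss in the other directions by a
multiple of `[L : F]`. The vectors of the derivatives of the coordinates of `x` and of the logarithmic
derivatives of the functions `φ_b(x, H(x))` have a nonzero minor, all poles of which outside of
finitely many places of `F` are simple and lie in the direction of the curve; the vertical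
derivatives of the values of the forms `H_a` span a space of dimension at most `f`.

Definitions of the library: `IsFF k F`: `F` is finitely generated and of transcendence degree one over
`k`; `Place k L`: the points of the smooth projective curve with function field `L`; `pord P x`: the
minimum of the orders at `P` of the coordinates; `pht k x`: minus the sum of `pord P x` over all
places, the height relative to `L`; `canDeg k L`: the degree `2 g(L) - 2` of the canonical divisor;
`coords F0 x`: the field generated over `F0` by the ratios of the coordinates; `DimLE F0 V m`: the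
closed subset `V` of projective space has dimension at most `m`. `CoordsB F0 x w T ψ`
(`Pool/Agent/KS6_26/E/ZLog.lean`): the field generated over `F0` by the ratios of the coordinates and by
the values `ψ_b / x_j ^ w_b`, `b ∈ T`.
-/

set_option autoImplicit false

namespace Pool.Agent.Results.MP_4dacf8_ag.PreimagesOfPairs

open FF MvPolynomial Pool.Agent.W603.LV Pool.Agent.W603.PV
open Pool.Agent.W602.GT (coords)
open Pool.Agent.TH145.MG (DimLE)
open Pool.Agent.KS6_26.E (CoordsB)

/-- The forms `H a` have degrees `d a`, and their coefficients are algebraically independent over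
`F0`, for all `a` together. -/
def Generic (F0 : Type) {F A : Type} [Field F0] [Field F] [Algebra F0 F] {n : ℕ} (d : A → ℕ)
    (H : A → MvPolynomial (Fin (n + 1)) F) : Prop :=
  (∀ a, (H a).IsHomogeneous (d a)) ∧ AlgebraicIndependent F0
    fun p : {p : A × (Fin (n + 1) →₀ ℕ) // p.2.degree = d p.1} => (H p.1.1).coeff p.1.2

/-- The field `F0(g(v))` generated over `F0` by the values of the `g b` at the point `v`. -/
def Val (F0 : Type) {Ω A Λ : Type} [Field F0] [Field Ω] [Algebra F0 Ω]
    (g : Λ → MvPolynomial A F0) (v : A → Ω) : IntermediateField F0 Ω :=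
  IntermediateField.adjoin F0 (Set.range fun b => aeval v (g b))

/-- The map given by the `g b` on the part of `Y` where they are all different from `0` has an image
of dimension at most `j`, and fibres of dimension at most `f`: for all points `v` of `Y` with
`g b ≠ 0` at `v`, the transcendence degree of `F0(g(v))` over `F0` is at most `j`, and that of
`F0(g(v), v)` over `F0(g(v))` is at most `f`. -/
def MapDim {F0 A Λ : Type} [Field F0] (Y : Set (MvPolynomial A F0)) (g : Λ → MvPolynomial A F0)
    (j f : ℕ) : Prop :=
  ∀ (Ω : Type) [Field Ω] [Algebra F0 Ω] (v : A → Ω), (∀ p ∈ Y, aeval v p = 0) →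
    (∀ b, aeval v (g b) ≠ 0) → Algebra.trdeg F0 (Val F0 g v) ≤ j ∧
    Algebra.trdeg (Val F0 g v) (IntermediateField.adjoin (Val F0 g v) (Set.range v)) ≤ f

/-- The inequality `κ h(x) ≤ |W| + 2 g(L) - 2 + C [L : F]`. -/
def Ineq {k : Type} (F : Type) {L : Type} [Field k] [Field F] [Field L] [Algebra k L]
    [Algebra F L] {n : ℕ} (κ : ℤ) (x : Fin (n + 1) → L) (W : Set (Place k L)) (C : ℕ) : Prop :=
  κ * pht k x ≤ W.ncard + canDeg k L + C * Module.finrank F L

/-- Part (1), the general inequality. -/
def General (k F0 F : Type) [Field k] [Field F0] [Field F] [Algebra k F] [Algebra F0 F] (n : ℕ)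
    (A : Type) [Fintype A] : Prop :=
  ∀ (d : A → ℕ) (H : A → MvPolynomial (Fin (n + 1)) F), Generic F0 d H →
    ∀ (Λ : Type) [Fintype Λ] (φ : Λ → MvPolynomial (Fin (n + 1) ⊕ A) F0) (w : Λ → ℕ),
    (∀ b, IsWeightedHomogeneous (Sum.elim (fun _ => 1) d) (φ b) (w b)) →
    ∃ C : ℕ, ∀ (L : Type) [Field L] [Algebra k L] [Algebra F L] [Algebra F0 L]
      [IsScalarTower k F L] [IsScalarTower F0 F L] [FiniteDimensional F L]
      (x : Fin (n + 1) → L) (u : A → L) (ψ : Λ → L), x ≠ 0 → (∀ a, u a = aeval x (H a)) →
      (∀ b, ψ b = aeval (Sum.elim x u) (φ b)) → ∀ (T : Finset Λ) (r s f : ℕ) (κ : ℤ),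
      (∀ b ∈ T, ψ b ≠ 0) → Algebra.trdeg F0 (coords F0 x) ≤ r →
      Algebra.trdeg F0 (CoordsB F0 x w T ψ) ≤ s →
      Algebra.trdeg (CoordsB F0 x w T ψ) (IntermediateField.adjoin (CoordsB F0 x w T ψ)
        {z | ∃ a j, x j ≠ 0 ∧ z = u a / x j ^ d a}) ≤ f →
      (∀ B : Finset A, Fintype.card A ≤ B.card + f →
        κ + r + s + 1 ≤ ∑ a ∈ B, ((d a : ℤ) + 1)) →
      Ineq (k := k) F κ x {P | ∃ b ∈ T, w b * pord P x < P.ord (ψ b)} C

/-- Part (2), the preimages of pairs. -/
def Preimages (k F0 F : Type) [Field k] [Field F0] [Field F] [Algebra k F] [Algebra F0 F] (n : ℕ)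
    (A : Type) [Fintype A] : Prop :=
  ∀ (d : A → ℕ) (H : A → MvPolynomial (Fin (n + 1)) F), Generic F0 d H →
    ∀ (Λ : Type) [Fintype Λ] (g : Λ → MvPolynomial A F0) (w : Λ → ℕ),
    (∀ b, IsWeightedHomogeneous d (g b) (w b)) →
    ∃ C : ℕ, ∀ (V : Set (MvPolynomial (Fin (n + 1)) F0)) (m : ℕ), DimLE F0 V m →
      ∀ (Y : Set (MvPolynomial A F0)) (j f : ℕ), (∀ p ∈ Y, ∃ e, IsWeightedHomogeneous d p e) →
      MapDim Y g j f → ∀ κ : ℤ, (∀ B : Finset A, Fintype.card A ≤ B.card + f →
        κ + 2 * m + j + 1 ≤ ∑ a ∈ B, ((d a : ℤ) + 1)) →
      ∀ (L : Type) [Field L] [Algebra k L] [Algebra F L] [Algebra F0 L]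
        [IsScalarTower k F L] [IsScalarTower F0 F L] [FiniteDimensional F L]
        (x : Fin (n + 1) → L) (u : A → L), x ≠ 0 → (∀ p ∈ V, aeval x p = 0) →
      (∀ a, u a = aeval x (H a)) → (∀ p ∈ Y, aeval u p = 0) → (∀ b, aeval u (g b) ≠ 0) →
      Ineq (k := k) F κ x {P | ∃ b, w b * pord P x < P.ord (aeval u (g b))} C

/-- Part (3), the generic members of linear systems with base points. -/
def BasePoints (k F0 F : Type) [Field k] [Field F0] [Field F] [Algebra k F] [Algebra F0 F]
    (n : ℕ) (A : Type) [Fintype A] : Prop :=
  ∀ (I : Type) [Fintype I] (d : I × A → ℕ) (G : A → MvPolynomial (Fin (n + 1)) F0) (g : A → ℕ),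
    (∀ a, (G a).IsHomogeneous (g a)) → ∀ D : I → ℕ, (∀ i a, d (i, a) + g a = D i) →
    ∀ H : I × A → MvPolynomial (Fin (n + 1)) F, Generic F0 d H →
    ∃ C : ℕ, ∀ (V : Set (MvPolynomial (Fin (n + 1)) F0)) (m : ℕ), DimLE F0 V m →
      ∀ (L : Type) [Field L] [Algebra k L] [Algebra F L] [Algebra F0 L]
        [IsScalarTower k F L] [IsScalarTower F0 F L] [FiniteDimensional F L]
        (x : Fin (n + 1) → L) (ψ : I → L), x ≠ 0 → (∀ p ∈ V, aeval x p = 0) →
      (∃ a, aeval x (G a) ≠ 0) → (∀ i, ψ i = ∑ a, aeval x (G a) * aeval x (H (i, a))) →
      ∀ κ : ℤ, (∀ B : Finset (I × A), B.card = Fintype.card I →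
        κ + 2 * m + 1 ≤ ∑ p ∈ B, (d p : ℤ) + {i | ψ i = 0}.ncard) →
      Ineq (k := k) F κ x {P | ∃ i, ψ i ≠ 0 ∧ D i * pord P x < P.ord (ψ i)} C

theorem result {k0 k F0 F : Type} [Field k0] [Field k] [Field F0] [Field F] [IsAlgClosed k]
    [CharZero k] [Algebra k0 k] [Algebra k F] [Algebra k0 F] [IsScalarTower k0 k F]
    [Algebra k0 F0] [Algebra F0 F] [IsScalarTower k0 F0 F]
    -- `F` is a function field of one variable over `k`, `F0` is finitely generated over `k0`
    [IsFF k F] (hfg : ∃ S : Finset F0, IntermediateField.adjoin k0 (S : Set F0) = ⊤) (n : ℕ)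
    (A : Type) [Fintype A] :
    General k F0 F n A ∧ Preimages k F0 F n A ∧ BasePoints k F0 F n A := by
  refine ⟨fun d H hH _ _ φ w hφ =>
      Pool.Agent.KS6_26.E.zlog_main (k0 := k0) (k := k) hfg d H hH.1 hH.2 φ w hφ,
    fun d H hH _ _ g w hg => ?_, fun _ _ _ _ _ hG _ hD H hH =>
      Pool.Agent.KS6_26.E.zlog_base (k0 := k0) (k := k) hfg hG hD H hH.1 hH.2⟩
  obtain ⟨C, hC⟩ :=
    Pool.Agent.KS6_26.E.zlog_prod (k0 := k0) (k := k) hfg d H hH.1 hH.2 g w hg
  refine ⟨C, fun V m hV Y j f hYh hY κ hκ L _ _ _ _ _ _ _ x u hx hxV hu hxY hxg => ?_⟩
  obtain rfl : u = fun a => aeval x (H a) := funext hu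
  exact hC V m hV Y j f hYh hY κ hκ L x hx hxV hxY hxg

end Pool.Agent.Results.MP_4dacf8_ag.PreimagesOfPairs
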