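import Pool.Agent.KS6_26.E.Prod

/-!
MP_4dacf8_ag, Q1: Vojta's height inequality, with constant one and truncated counting function, for
generic pairs in products of projective spaces, for all algebraic points.

Let `F` be a function field of one variable over an algebraically closed field `k` of characteristic
`0`, and let `F0` be a subfield of `F` which is finitely generated over a subfield `k0` of `k`. Let
`W` be the product of the projective spaces of dimensions `n_s`, for `s` in a finite set `S`, and let
`H_a`, for `a` in a finite set `A`, be multihomogeneous forms on `W` over `F`, not `0`, of
multidegrees `(d_{a,s})_s`, which are generic relative to `F0`: the ratios of the coefficients of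
each form to one of them, for all forms together, are algebraically independent over `F0`. (For `k`
uncountable and `k0` countable, this holds for the very general forms over `k`, and for very general
families of forms, which are not isotrivial.)

Then there is a constant `C` such that for all finite extensions `L` of `F` and all points
`x = (x_s)_s` of `W` over `L`, if the closure of the point `x` over `F0` has dimension at most `r`, and
its image in the factor with index `s` has dimension at most `r_s`, and if `z(x)` is the number of the
forms `H_a` with `H_a(x) = 0`, then

`∑_s κ_s h(x_s) ≤ N1(x) + 2 g(L) - 2 + C [L : F]`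

for all integers `κ_s ≤ ∑_a d_{a,s} + z(x) - r - r_s - 1`. Here `h(x_s)` is the height of `x_s` relative
to `L`, and `N1(x)` is the number of places of `L` at which `x` meets one of the hypersurfaces
`H_a = 0` with `H_a(x) ≠ 0`, each place being counted once. All the heights are relative to `L`, so
that they are `[L : F]` times those of the question.

So let `V` be any closed subset over `F0` of `W`, of dimension `m`, and with image of dimension `m_s`
in the factor with index `s`. Let `E` be a subset of `A`, let `X` be the intersection of `V` with
the hypersurfaces `H_a = 0`, `a ∈ E`, and let `D` be the union of the sections `H_b = 0`, `b ∉ E`. The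
points of `X ∖ D` have `z(x) = |E|`, `r = m` and `r_s = m_s`. If
`m + m_s + 2 ≤ ∑_a d_{a,s} + |E|` for all `s`, then

`∑_s h(x_s) ≤ N1(x) + 2 g(L) - 2 + C [L : F]`

for all points `x` of `X ∖ D` over all finite extensions `L`, with a constant `C` which does not
depend on `V`. The left hand side is the height for the ample class `(1, …, 1)`, and the height for
every other line bundle on `X` is at most a multiple of it, up to `O([L : F])`. So this is the
inequality of the question for `(X, D)`, with `Z = D`.

If `V = W`, then `(X, D)` is a normal crossings pair, the log canonical class of which has the
degrees `∑_a d_{a,s} - n_s - 1`. The condition says that these degrees are at least `dim X + 1`.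

For one factor (`|S| = 1`) this is known (`GenericPairs`). For more factors the pairs are new: by
the Segre embedding the known result applies to the case in which all `d_{a,s}` are equal to `d_a`,
only, and with the stronger condition `2 m + 2 ≤ ∑ d_a + |E|` in the place of
`m + m_s + 2 ≤ ∑ d_a + |E|`. For example, let `X` be projective space of dimension `1` times itself,
and let `D` be a generic curve of bidegree `(d, e)`, `d, e ≥ 5`; or let `X` be the generic
hypersurface of bidegree `(d, e)` in a product of two projective spaces of dimensions `p`, `q`,
`d ≥ 2 p + q + 1` and `e ≥ p + 2 q + 1`.

The proof: there are derivations dual to the ratios of the coefficients, which extend to `L`; the loss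
in the direction of the curve is bounded by the ramification, the loss in the other directions by a
multiple of `[L : F]`. The vectors of the derivatives of the point and of the logarithmic derivatives
of the values of the forms that do not vanish at `x` have a nonzero minor, all poles of which
outside of finitely many places of `F` are simple and lie in the direction of the curve; the number
of the columns of a minor which belong to the factor with index `s` is at most `r_s + 1`.

Definitions: `MHom F e`: `F` is multihomogeneous of multidegree `e`; `CoordsP F0 x`: the field
generated over `F0` by the ratios of the coordinates of the points `x s`, for all `s`; `coords F0 y`: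
the same for one point `y`. Of the library: `IsFF k F`: `F` is finitely generated and of
transcendence degree one over `k`; `Place k L`: the points of the smooth projective curve with
function field `L`; `pord P x`: the minimum of the orders at `P` of the coordinates; `pht k x`: minus
the sum of `pord P x` over all places, the height relative to `L`; `canDeg k L`: the degree
`2 g(L) - 2` of the canonical divisor.
-/

set_option autoImplicit false

namespace Pool.Agent.Results.MP_4dacf8_ag.ProductsOfProjectiveSpaces

open FF MvPolynomial Pool.Agent.W603.LV Pool.Agent.W603.PV
open Pool.Agent.W602.GT (coords)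
open Pool.Agent.KS6_26.D (MHom CoordsP)

theorem result {k0 k F0 F : Type} [Field k0] [Field k] [Field F0] [Field F] [IsAlgClosed k]
    [CharZero k] [Algebra k0 k] [Algebra k F] [Algebra k0 F] [IsScalarTower k0 k F]
    [Algebra k0 F0] [Algebra F0 F] [IsScalarTower k0 F0 F]
    -- `F` is a function field of one variable over `k`, `F0` is finitely generated over `k0`
    [IsFF k F] (hfg : ∃ S : Finset F0, IntermediateField.adjoin k0 (S : Set F0) = ⊤)
    -- forms of multidegrees `d a` on the product of the projective spaces of dimensions `n s`
    {S : Type} [Fintype S] {n : S → ℕ} {A : Type} [Fintype A] (d : A → S → ℕ)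
    (H : A → MvPolynomial (Σ s, Fin (n s + 1)) F) (hH : ∀ a, MHom (H a) (d a))
    -- the ratios of the coefficients are algebraically independent over `F0`
    (I0 : A → (Σ s, Fin (n s + 1)) →₀ ℕ) (hI0 : ∀ a, (H a).coeff (I0 a) ≠ 0)
    (hgen : AlgebraicIndependent F0
      fun p : {p : A × ((Σ s, Fin (n s + 1)) →₀ ℕ) //
          (∀ s, ∑ i, p.2 ⟨s, i⟩ = d p.1 s) ∧ p.2 ≠ I0 p.1} =>
        (H p.1.1).coeff p.1.2 / (H p.1.1).coeff (I0 p.1.1)) :
    ∃ C : ℕ, ∀ (L : Type) [Field L] [Algebra k L] [Algebra F L] [Algebra F0 L]
      [IsScalarTower k F L] [IsScalarTower F0 F L] [FiniteDimensional F L]
      (x : ∀ s, Fin (n s + 1) → L) (r : ℕ) (rs : S → ℕ) (κ : S → ℤ), (∀ s, x s ≠ 0) →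
      Algebra.trdeg F0 (CoordsP F0 x) ≤ r → (∀ s, Algebra.trdeg F0 (coords F0 (x s)) ≤ rs s) →
      (∀ s, κ s + r + rs s + 1 ≤ ∑ a, (d a s : ℤ) +
        {a | aeval (fun i : Σ s, Fin (n s + 1) => x i.1 i.2) (H a) = 0}.ncard) →
      ∑ s, κ s * pht k (x s) ≤
        {P : Place k L | ∃ a, aeval (fun i : Σ s, Fin (n s + 1) => x i.1 i.2) (H a) ≠ 0 ∧
          ∑ s, (d a s : ℤ) * pord P (x s) <
            P.ord (aeval (fun i : Σ s, Fin (n s + 1) => x i.1 i.2) (H a))}.ncard +
          canDeg k L + C * Module.finrank F L :=
  Pool.Agent.KS6_26.E.prod_main (k0 := k0) (k := k) hfg d H hH I0 hI0 hgen

end Pool.Agent.Results.MP_4dacf8_ag.ProductsOfProjectiveSpaces
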